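import Pool.Agent.H39.Newt4.Stmts

/-! # Project NEWTON4, module LCV: polynomials which vanish on coordinate subspaces -/

set_option autoImplicit false

namespace Pool.Newt4

open MvPolynomial Pool.Agent.H39.MonoR Pool.Agent.H75.Mono Pool.Newt Pool.Newt2 Pool.Newt3

open Classical in
/-- the variables outside of `F` are replaced by zero -/
theorem LCV_monomial {I : Type} (F : Set I) (β : I →₀ ℕ) (c : ℂ) :
    aeval (fun i => if i ∈ F then (X i : MvPolynomial I ℂ) else 0) (monomial β c) =
      if (β.support : Set I) ⊆ F then monomial β c else 0 := by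
  rw [aeval_monomial]
  split_ifs with h
  · rw [monomial_eq]
    refine congrArg (fun y => C c * y) ?_
    refine Finsupp.prod_congr fun i hi => ?_
    rw [if_pos (h hi)]
  · obtain ⟨i, hi, hiF⟩ := Set.not_subset.1 h
    have h0 : (β.prod fun i k => (if i ∈ F then (X i : MvPolynomial I ℂ) else 0) ^ k) = 0 := by
      refine Finset.prod_eq_zero hi ?_
      show (if i ∈ F then (X i : MvPolynomial I ℂ) else 0) ^ (β i) = 0
      rw [if_neg hiF, zero_pow (Finsupp.mem_support_iff.1 hi)]
    rw [h0, mul_zero]

open Classical in
theorem LCV_coeff {I : Type} (F : Set I) (G : MvPolynomial I ℂ) (β : I →₀ ℕ)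
    (hβ : (β.support : Set I) ⊆ F) :
    coeff β (aeval (fun i => if i ∈ F then (X i : MvPolynomial I ℂ) else 0) G) = coeff β G := by
  induction G using MvPolynomial.induction_on' with
  | monomial γ c =>
    rw [LCV_monomial]
    split_ifs with h
    · rfl
    · rw [coeff_zero, coeff_monomial, if_neg]
      intro h1
      rw [h1] at h
      exact h hβ
  | add p q hp hq => rw [map_add, coeff_add, coeff_add, hp, hq]

theorem LCV_eval {I : Type} (f : I → MvPolynomial I ℂ) (y : I → ℂ) (G : MvPolynomial I ℂ) :
    eval y (aeval f G) = eval (fun i => eval y (f i)) G := by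
  induction G using MvPolynomial.induction_on with
  | C c => rw [aeval_C, eval_C]; exact eval_C _
  | add p q hp hq => rw [map_add, map_add, map_add, hp, hq]
  | mul_X p i hp => rw [map_mul, map_mul, map_mul, hp, aeval_X, eval_X]

theorem sLcv : SLcv := by
  classical
  intro I _ G t0 V hV
  rw [G.as_sum]
  refine Ideal.sum_mem _ fun β hβ => ?_
  have hc : coeff β G ≠ 0 := mem_support_iff.1 hβ
  have hS : ∀ F ∈ V, ¬ ((β.support : Set I) ⊆ F) := by
    intro F hF hSF
    obtain ⟨M, hM⟩ := hV F hF
    have h0 : aeval (fun i => if i ∈ F then (X i : MvPolynomial I ℂ) else 0) G = 0 := by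
      refine MvPolynomial.funext_set (fun i => {z : ℂ | ∃ t : ℕ, M ≤ t ∧ z = t - t0 i}) ?_ ?_
      · intro i
        refine Set.infinite_of_injective_forall_mem (f := fun t : ℕ => ((M + t : ℕ) : ℂ) - t0 i) ?_ ?_
        · intro t t' h
          have h1 : ((M + t : ℕ) : ℂ) = ((M + t' : ℕ) : ℂ) := sub_left_injective h
          have h2 := Nat.cast_injective h1
          omega
        · intro t
          exact ⟨M + t, by omega, rfl⟩
      · intro y hy
        have hy' : ∀ i, ∃ t : ℕ, M ≤ t ∧ y i = t - t0 i := fun i => hy i (Set.mem_univ i)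
        choose t ht1 ht2 using hy'
        show eval y _ = eval y 0
        rw [map_zero]
        have h1 : eval y (aeval (fun i => if i ∈ F then (X i : MvPolynomial I ℂ) else 0) G) =
            eval (fun i => if i ∈ F then y i else 0) G := by
          rw [LCV_eval]
          refine congrArg (fun z => eval z G) (funext fun i => ?_)
          split_ifs with h
          · exact eval_X _
          · exact map_zero _
        rw [h1]
        refine hM t (fun i _ => ht1 i) _ (fun i hi => ?_) (fun i hi => if_neg hi)
        rw [if_pos hi]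
        exact ht2 i
    have h1 := LCV_coeff F G β hSF
    rw [h0, coeff_zero] at h1
    exact hc h1.symm
  refine Ideal.mem_of_dvd _ ?_ (Ideal.subset_span ⟨β.support, hS, rfl⟩)
  rw [monomial_eq]
  refine Dvd.dvd.mul_left ?_ _
  refine Finset.prod_dvd_prod_of_dvd _ _ fun i hi => ?_
  exact dvd_pow_self _ (Finsupp.mem_support_iff.1 hi)

end Pool.Newt4
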